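import Pool.Agent.T9h20.TE.Spec

/-!
# Piece (D): summation by parts
-/

set_option autoImplicit false

open MeasureTheory Set Filter Topology
open scoped ENNReal NNReal

namespace Pool.Agent.T9h77.TE

open Pool.Agent.T9h20.TA (mon fn PP upd kap)
open Pool.Agent.T9h20.TE

open Classical in
/-- the number of changes from `l` on -/
noncomputable def cnt {q : ℕ} (D : ℕ → Set (Fin q → ℝ)) (L l : ℕ) (r : Fin q → ℝ) : ℕ :=
  ∑ l' ∈ Finset.Ico l L, if ¬(r ∈ D l' ↔ r ∈ D (l' + 1)) then 1 else 0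

theorem cnt_le {q : ℕ} {D : ℕ → Set (Fin q → ℝ)} {L C1 : ℕ}
    (h : ∀ r, chg (fun l => r ∈ D l) L ≤ C1) (l : ℕ) (r : Fin q → ℝ) : cnt D L l r ≤ C1 := by
  classical
  refine le_trans ?_ (h r)
  unfold cnt chg
  rw [Finset.card_filter]
  refine (Finset.sum_le_sum_of_subset (by
    intro x hx
    rw [Finset.mem_Ico] at hx
    exact Finset.mem_range.mpr hx.2)).trans (le_of_eq ?_)
  exact Finset.sum_congr rfl fun x _ => by congr

theorem cnt_succ {q : ℕ} (D : ℕ → Set (Fin q → ℝ)) {L l : ℕ} (hl : l < L) (r : Fin q → ℝ) :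
    (cnt D L l r : ℝ≥0∞) = {r | ¬(r ∈ D l ↔ r ∈ D (l + 1))}.indicator 1 r +
      (cnt D L (l + 1) r : ℝ≥0∞) := by
  classical
  unfold cnt
  rw [Finset.sum_eq_sum_Ico_succ_bot hl]
  push_cast
  congr 1
  by_cases h : ¬(r ∈ D l ↔ r ∈ D (l + 1))
  · rw [if_pos h, indicator_of_mem (show r ∈ {r | ¬(r ∈ D l ↔ r ∈ D (l + 1))} from h)]
    rfl
  · rw [if_neg h, indicator_of_notMem (show r ∉ {r | ¬(r ∈ D l ↔ r ∈ D (l + 1))} from h)]

theorem meas_T {q : ℕ} {D : ℕ → Set (Fin q → ℝ)} (hD : ∀ l, MeasurableSet (D l)) (l : ℕ) :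
    MeasurableSet {r | ¬(r ∈ D l ↔ r ∈ D (l + 1))} :=
  measurableSet_setOfPred.mpr
    ((measurableSet_setOfPred.mp (hD l)).iff (measurableSet_setOfPred.mp (hD (l + 1)))).not

theorem meas_cnt {q : ℕ} {D : ℕ → Set (Fin q → ℝ)} (hD : ∀ l, MeasurableSet (D l)) (L l : ℕ) :
    Measurable (cnt D L l) := by
  classical
  unfold cnt
  exact Finset.measurable_sum _ fun l' _ =>
    Measurable.ite (meas_T hD l') measurable_const measurable_const

theorem meas_rho {q t : ℕ} (g : Fin q → Fin t → ℝ) :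
    Measurable (fun v : Fin q → Fin t → ℝ => rho g v) := by
  refine measurable_pi_lambda _ fun j => ?_
  unfold rho
  refine Finset.measurable_sum _ fun s _ => ?_
  have h1 : Measurable (fun v : Fin q → Fin t → ℝ => v j s) :=
    (measurable_pi_apply s).comp (measurable_pi_apply j)
  exact h1.mul_const _

theorem layer {q t : ℕ} {D : ℕ → Set (Fin q → ℝ)} (hD : ∀ l, MeasurableSet (D l)) {L C1 : ℕ}
    (h : ∀ r, chg (fun l => r ∈ D l) L ≤ C1) (P : Measure (Fin q → Fin t → ℝ))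
    (g : Fin q → Fin t → ℝ) (l : ℕ) :
    ∫⁻ v, (cnt D L l (rho g v) : ℝ≥0∞) ∂P =
      ∑ m ∈ Finset.range C1, P {v | rho g v ∈ {r | m + 1 ≤ cnt D L l r}} := by
  classical
  have hm : ∀ m, MeasurableSet {v : Fin q → Fin t → ℝ | rho g v ∈ {r | m + 1 ≤ cnt D L l r}} := by
    intro m
    exact ((meas_cnt hD L l).comp (meas_rho g)) (measurableSet_Ici (a := m + 1))
  have h1 : ∀ v : Fin q → Fin t → ℝ, (cnt D L l (rho g v) : ℝ≥0∞) =
      ∑ m ∈ Finset.range C1,
        {v : Fin q → Fin t → ℝ | rho g v ∈ {r | m + 1 ≤ cnt D L l r}}.indicator 1 v := by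
    intro v
    have h2 := cnt_le h l (rho g v)
    have h3 : ∑ m ∈ Finset.range C1,
        {v : Fin q → Fin t → ℝ | rho g v ∈ {r | m + 1 ≤ cnt D L l r}}.indicator
          (1 : (Fin q → Fin t → ℝ) → ℝ≥0∞) v =
        ∑ m ∈ Finset.range C1, if m < cnt D L l (rho g v) then (1 : ℝ≥0∞) else 0 := by
      refine Finset.sum_congr rfl fun m _ => ?_
      by_cases hm : m < cnt D L l (rho g v)
      · rw [if_pos hm, indicator_of_mem (show v ∈ {v : Fin q → Fin t → ℝ |
          rho g v ∈ {r | m + 1 ≤ cnt D L l r}} from hm)]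
        rfl
      · rw [if_neg hm, indicator_of_notMem (show v ∉ {v : Fin q → Fin t → ℝ |
          rho g v ∈ {r | m + 1 ≤ cnt D L l r}} from hm)]
    rw [h3, ← Finset.sum_filter]
    have h4 : (Finset.range C1).filter (fun m => m < cnt D L l (rho g v)) =
        Finset.range (cnt D L l (rho g v)) := by
      ext m
      simp only [Finset.mem_filter, Finset.mem_range]
      omega
    rw [h4]
    simp
  rw [lintegral_congr h1, lintegral_finsetSum _ fun m _ => (measurable_one.indicator (hm m))]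
  exact Finset.sum_congr rfl fun m _ => lintegral_indicator_one (hm m)

theorem sBlk : SHyb → SBlk := by
  intro hyb q t μ _ A hsh hA s0 L g hg D hD C1 C2 hC1 hC2
  classical
  set P := PP μ with hP
  have : IsProbabilityMeasure P := by
    rw [hP]
    unfold PP
    infer_instance
  set G : ℕ → ℝ≥0∞ := fun l => ∑ j, ∑ s, ‖g (l + 1) j s - g l j s‖ₑ with hG
  -- the mean of the number of changes
  set e : ℕ → ℝ≥0∞ := fun l => ∫⁻ v, (cnt D L l (rho (g l) v) : ℝ≥0∞) ∂P with he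
  set x : ℕ → ℝ≥0∞ := fun l => P {v | rho (g l) v ∈ {r | ¬(r ∈ D l ↔ r ∈ D (l + 1))}} with hx
  have hmeasC : ∀ l m, MeasurableSet {r : Fin q → ℝ | m + 1 ≤ cnt D L l r} := fun l m =>
    (meas_cnt hD L l) (measurableSet_Ici (a := m + 1))
  have step : ∀ l, l < L → x l + e (l + 1) ≤ e l + C1 * (A * G l) := by
    intro l hl
    have h1 : e l = x l + ∫⁻ v, (cnt D L (l + 1) (rho (g l) v) : ℝ≥0∞) ∂P := by
      have h2 : ∀ v : Fin q → Fin t → ℝ, (cnt D L l (rho (g l) v) : ℝ≥0∞) =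
          {v : Fin q → Fin t → ℝ | rho (g l) v ∈ {r | ¬(r ∈ D l ↔ r ∈ D (l + 1))}}.indicator 1 v +
            (cnt D L (l + 1) (rho (g l) v) : ℝ≥0∞) := fun v => cnt_succ D hl (rho (g l) v)
      have hm : MeasurableSet {v : Fin q → Fin t → ℝ |
          rho (g l) v ∈ {r | ¬(r ∈ D l ↔ r ∈ D (l + 1))}} := (meas_rho (g l)) (meas_T hD l)
      show ∫⁻ v, (cnt D L l (rho (g l) v) : ℝ≥0∞) ∂P = _
      rw [lintegral_congr h2, lintegral_add_left (measurable_one.indicator hm),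
        lintegral_indicator_one hm]
    have h3 : e (l + 1) ≤ ∫⁻ v, (cnt D L (l + 1) (rho (g l) v) : ℝ≥0∞) ∂P + C1 * (A * G l) := by
      show ∫⁻ v, (cnt D L (l + 1) (rho (g (l + 1)) v) : ℝ≥0∞) ∂P ≤ _
      rw [layer hD hC1, layer hD hC1]
      have h4 : ∀ m ∈ Finset.range C1,
          P {v | rho (g (l + 1)) v ∈ {r | m + 1 ≤ cnt D L (l + 1) r}} ≤
            P {v | rho (g l) v ∈ {r | m + 1 ≤ cnt D L (l + 1) r}} + A * G l := by
        intro m _
        exact (hyb q t μ A hsh hA s0 (g l) (g (l + 1)) (hg l) (hg (l + 1)) _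
          (hmeasC (l + 1) m)).1
      refine (Finset.sum_le_sum h4).trans (le_of_eq ?_)
      rw [Finset.sum_add_distrib, Finset.sum_const, Finset.card_range, nsmul_eq_mul]
    rw [h1]
    calc x l + e (l + 1) ≤ x l + (∫⁻ v, (cnt D L (l + 1) (rho (g l) v) : ℝ≥0∞) ∂P +
          C1 * (A * G l)) := by gcongr
      _ = _ := by rw [add_assoc]
  have tele : ∀ m, m ≤ L → ∑ l ∈ Finset.range m, x l + e m ≤
      e 0 + C1 * (A * ∑ l ∈ Finset.range m, G l) := by
    intro m
    induction m with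
    | zero => intro _; simp
    | succ m ih =>
      intro hm
      rw [Finset.sum_range_succ, Finset.sum_range_succ, add_assoc]
      calc ∑ l ∈ Finset.range m, x l + (x m + e (m + 1))
          ≤ ∑ l ∈ Finset.range m, x l + (e m + C1 * (A * G m)) := by
            exact add_le_add le_rfl (step m (by omega))
        _ = (∑ l ∈ Finset.range m, x l + e m) + C1 * (A * G m) := by rw [add_assoc]
        _ ≤ (e 0 + C1 * (A * ∑ l ∈ Finset.range m, G l)) + C1 * (A * G m) := by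
            exact add_le_add (ih (by omega)) le_rfl
        _ = e 0 + C1 * (A * (∑ l ∈ Finset.range m, G l + G m)) := by ring
  have he0 : e 0 ≤ C1 := by
    show ∫⁻ v, (cnt D L 0 (rho (g 0) v) : ℝ≥0∞) ∂P ≤ C1
    calc ∫⁻ v, (cnt D L 0 (rho (g 0) v) : ℝ≥0∞) ∂P ≤ ∫⁻ _, (C1 : ℝ≥0∞) ∂P := by
          exact lintegral_mono fun v => Nat.cast_le.mpr (cnt_le hC1 0 (rho (g 0) v))
      _ = C1 := by simp
  have hx' : ∑ l ∈ Finset.range L, x l ≤ C1 + C1 * (A * ∑ l ∈ Finset.range L, G l) := by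
    refine le_trans (le_add_right le_rfl) ((tele L le_rfl).trans ?_)
    gcongr
  have hterm : ∀ l ∈ Finset.range L,
      P {v | ¬(rho (g l) v ∈ D l ↔ rho (g (l + 1)) v ∈ D (l + 1))} ≤ x l + C2 * A * G l := by
    intro l _
    have h1 := (hyb q t μ A hsh hA s0 (g l) (g (l + 1)) (hg l) (hg (l + 1)) (D (l + 1))
      (hD (l + 1))).2 (C2 : ℝ≥0) (fun j r y y' => by
        have := hC2 (l + 1) j r y y'
        simpa using this)
    have h2 : {v : Fin q → Fin t → ℝ | ¬(rho (g l) v ∈ D l ↔ rho (g (l + 1)) v ∈ D (l + 1))} ⊆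
        {v | rho (g l) v ∈ {r | ¬(r ∈ D l ↔ r ∈ D (l + 1))}} ∪
          {v | ¬(rho (g l) v ∈ D (l + 1) ↔ rho (g (l + 1)) v ∈ D (l + 1))} := by
      intro v hv
      simp only [mem_ofPred_eq, mem_union] at hv ⊢
      tauto
    refine (measure_mono h2).trans ((measure_union_le _ _).trans ?_)
    refine add_le_add le_rfl ?_
    simpa using h1
  refine (Finset.sum_le_sum hterm).trans ?_
  rw [Finset.sum_add_distrib, ← Finset.mul_sum]
  calc ∑ l ∈ Finset.range L, x l + C2 * A * ∑ l ∈ Finset.range L, G l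
      ≤ (C1 + C1 * (A * ∑ l ∈ Finset.range L, G l)) + C2 * A * ∑ l ∈ Finset.range L, G l := by
        gcongr
    _ = C1 + (C1 + C2) * A * ∑ l ∈ Finset.range L, G l := by ring

end Pool.Agent.T9h77.TE
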